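import Mathlib
import Pool.Agent.W931.LC.Props

set_option autoImplicit false

/-! The fusion lemma and the decision lemma (project LC, MP_7b2404_lc). -/

namespace Pool.Agent.W717.LC

open Cardinal Pool.Agent.Helper669.Forcing Pool.Agent.Helper669.K Pool.Agent.Helper669.U
  Pool.Agent.Helper669.V Pool.Agent.W931.KH Pool.Agent.W931.LC

/-- Chains of size less than `χ` in a `χ`-closed preorder have lower bounds. -/
theorem chain_of_seqClosed {χ : Cardinal.{0}} {P : Type} [Preorder P] (h : SeqClosed χ P)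
    (S : Set P) (hS : ∀ s ∈ S, ∀ t ∈ S, s ≤ t ∨ t ≤ s) (hc : #S < χ) (hne : S.Nonempty) :
    ∃ t, ∀ s ∈ S, t ≤ s := by
  classical
  let AS : Type := Antisymmetrization S (· ≤ ·)
  let pAS : PartialOrder AS := inferInstanceAs (PartialOrder (Antisymmetrization S (· ≤ ·)))
  have htot : ∀ a b : AS, a ≤ b ∨ b ≤ a := by
    intro a b
    induction a using Antisymmetrization.ind with
    | _ a =>
      induction b using Antisymmetrization.ind with
      | _ b =>
        rcases hS a.1 a.2 b.1 b.2 with h1 | h1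
        · left
          exact toAntisymmetrization_le_toAntisymmetrization_iff.2 h1
        · right
          exact toAntisymmetrization_le_toAntisymmetrization_iff.2 h1
  let lAS : LinearOrder AS :=
    { pAS with
      le_total := htot
      toDecidableLE := Classical.decRel _ }
  obtain ⟨s0, hs0⟩ := hne
  have hneJ : Nonempty ASᵒᵈ := ⟨OrderDual.toDual (toAntisymmetrization (· ≤ ·) ⟨s0, hs0⟩)⟩
  have hJ : #(ASᵒᵈ) < χ := by
    refine lt_of_le_of_lt ?_ hc
    exact Cardinal.mk_quotient_le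
  obtain ⟨q, hq⟩ := h (ASᵒᵈ) hneJ hJ
    (fun j => (ofAntisymmetrization (α := S) (· ≤ ·) (OrderDual.ofDual j)).1) (by
      intro j j' hjj
      have h1 : OrderDual.ofDual j' ≤ OrderDual.ofDual j := hjj
      exact ofAntisymmetrization_le_ofAntisymmetrization_iff.2 h1)
  refine ⟨q, fun s hs => ?_⟩
  refine le_trans (hq (OrderDual.toDual (toAntisymmetrization (· ≤ ·) ⟨s, hs⟩))) ?_
  have h2 : ofAntisymmetrization (α := S) (· ≤ ·) (toAntisymmetrization (· ≤ ·) ⟨s, hs⟩)
      ≤ (⟨s, hs⟩ : S) := by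
    rw [← toAntisymmetrization_le_toAntisymmetrization_iff, toAntisymmetrization_ofAntisymmetrization]
  exact h2

/-- The common argument. -/
theorem gen (Q : Par) (A : Set I) {κ : Cardinal.{0}} (hκ : κ.IsRegular)
    (hcc : ∀ S : Set (∀ i : A, Co (Q.mu i) (Q.ka i)),
      (∀ a ∈ S, ∀ b ∈ S, Pool.Agent.Helper669.GBase.Compat a b → a = b) → #S < κ)
    (hT : ∀ j ∈ (Aᶜ : Set I), κ ≤ Q.mu j) {L : Type} (hL : #L < κ) (D : L → Set Q.Cd)
    (hdown : ∀ x, Down (D x)) (hdense : ∀ x, ∀ p, ∃ q ≤ p, q ∈ D x) (q : Q.Cd) :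
    ∃ q' ≤ q, ∀ x, ∀ b : Q.Cd, ∃ b' ≤ b, ∀ r : Q.Cd, (∀ i ∈ A, r i = b' i) →
      (∀ i ∉ A, r i = q' i) → r ∈ D x := by
  classical
  let gl : (∀ i : A, Co (Q.mu i) (Q.ka i)) → (∀ i : (Aᶜ : Set I), Co (Q.mu i) (Q.ka i)) → Q.Cd :=
    fun b t j => if h : j ∈ A then b ⟨j, h⟩ else t ⟨j, h⟩
  have gl1 : ∀ b t j (h : j ∈ A), gl b t j = b ⟨j, h⟩ := fun b t j h => dif_pos h
  have gl2 : ∀ b t j (h : j ∉ A), gl b t j = t ⟨j, h⟩ := fun b t j h => dif_neg h
  have glmono : ∀ b b' t t', b' ≤ b → t' ≤ t → gl b' t' ≤ gl b t := by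
    intro b b' t t' hb ht j
    by_cases h : j ∈ A
    · rw [gl1 _ _ _ h, gl1 _ _ _ h]
      exact hb ⟨j, h⟩
    · rw [gl2 _ _ _ h, gl2 _ _ _ h]
      exact ht ⟨j, h⟩
  obtain ⟨t', ht', hE⟩ := Pool.Agent.Helper669.Easton.easton hκ hcc
    (T := ∀ i : (Aᶜ : Set I), Co (Q.mu i) (Q.ka i))
    (fun S hS hc hne => chain_of_seqClosed (Q.seqClosed hT) S hS hc hne) hL
    (fun x b t => gl b t ∈ D x)
    (by
      intro x b t hD b' hb' t' ht'
      exact hdown x _ hD _ (glmono b b' t t' hb' ht'))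
    (by
      intro x b t
      obtain ⟨r, hr, hD⟩ := hdense x (gl b t)
      refine ⟨fun i => r i, ?_, fun i => r i, ?_, ?_⟩
      · intro i
        have := hr i.1
        rw [gl1 _ _ _ i.2] at this
        exact this
      · intro i
        have := hr i.1
        rw [gl2 _ _ _ i.2] at this
        exact this
      · have h1 : gl (fun i => r i) (fun i => r i) = r := by
          funext j
          by_cases h : j ∈ A
          · exact gl1 (fun i => r i) (fun i => r i) j h
          · exact gl2 (fun i => r i) (fun i => r i) j h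
        rw [h1]
        exact hD)
    (fun i => q i)
  refine ⟨gl (fun i => q i) t', ?_, ?_⟩
  · intro j
    by_cases h : j ∈ A
    · exact le_of_eq (gl1 (fun i => q i) t' j h)
    · exact (le_of_eq (gl2 (fun i => q i) t' j h)).trans (ht' ⟨j, h⟩)
  · intro x b
    obtain ⟨b', hb', hD⟩ := hE x (fun i => b i)
    refine ⟨fun j => if h : j ∈ A then b' ⟨j, h⟩ else b j, ?_, ?_⟩
    · intro j
      by_cases h : j ∈ A
      · simp only [dif_pos h]
        exact hb' ⟨j, h⟩
      · simp only [dif_neg h]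
        exact le_rfl
    · intro r hr1 hr2
      have h1 : r = gl b' t' := by
        funext j
        by_cases h : j ∈ A
        · rw [hr1 j h]
          exact (dif_pos h).trans (gl1 b' t' j h).symm
        · rw [hr2 j h]
          exact (gl2 (fun i => q i) t' j h).trans (gl2 b' t' j h).symm
      rw [h1]
      exact hD

theorem tFUS (h : S_CC) : S_FUS := by
  classical
  intro Q L hL D hdown hdense p
  -- the least index
  obtain ⟨j0, hj0⟩ : ∃ j0 : I, ∀ j, j0 ≤ j := by
    have hI : Nonempty I := by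
      rw [← Cardinal.mk_ne_zero_iff, mk_ord_toType]
      exact (aleph0_pos.trans_le (aleph0_le_aleph 1)).ne'
    obtain ⟨i0⟩ := hI
    obtain ⟨m, _, hm⟩ := (wellFounded_lt (α := I)).has_min Set.univ ⟨i0, trivial⟩
    exact ⟨m, fun j => not_lt.1 (hm j trivial)⟩
  have hI : #I < Q.mu j0 := by
    rw [mk_ord_toType]
    exact (Q.lam_ge j0).trans_lt (Q.lam_lt_mu j0)
  have hmixmono : ∀ (i : I) (b q q' : Q.Cd), q' ≤ q → Q.mix i b q' ≤ Q.mix i b q := by
    intro i b q q' hq j
    unfold Par.mix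
    by_cases hj : j ≤ i
    · rw [if_pos hj, if_pos hj]
    · rw [if_neg hj, if_neg hj]
      exact hq j
  obtain ⟨q, hq, hqE⟩ := SeqClosed.exists_forall_mem (Q.seqClosed_Cd j0 hj0) hI
    (fun i => {q : Q.Cd | ∀ x, ∀ b : Q.Cd, ∃ b' ≤ b, Q.mix i b' q ∈ D i x})
    (by
      intro i q hq q' hq' x b
      obtain ⟨b', hb', hD⟩ := hq x b
      exact ⟨b', hb', hdown i x _ hD _ (hmixmono i b' q q' hq')⟩)
    (by
      intro i q
      obtain ⟨q', hq', hE⟩ := gen Q (Set.Iic i) (κ := Order.succ (Q.ka i))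
        (Cardinal.isRegular_succ (Q.unc i).le)
        (fun S hS => (h Q i S hS).trans (Order.lt_succ _))
        (fun j hj => Order.succ_le_of_lt (Q.ka_lt_mu (not_le.1 hj)))
        (Order.lt_succ_of_le (hL i)) (D i) (hdown i) (hdense i) q
      refine ⟨q', hq', ?_⟩
      intro x b
      obtain ⟨b', hb', hr⟩ := hE x b
      refine ⟨b', hb', hr _ ?_ ?_⟩
      · intro j hj
        exact if_pos hj
      · intro j hj
        exact if_neg hj) p
  exact ⟨q, hq, hqE⟩

theorem tDEC2 (h : S_CARD2) : S_DEC2 := by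
  classical
  intro hG Q j L hL D hdown hdense p
  obtain ⟨q', hq', hE⟩ := gen Q (Set.Iio j) (κ := Q.mu j) (Q.mu_reg j)
    (fun S _ => (Cardinal.mk_set_le S).trans_lt ((h hG Q j).trans_lt (by
      unfold Par.mu
      exact (Order.lt_succ _).trans (Order.lt_succ _))))
    (fun i hi => by
      have hi' : j ≤ i := not_lt.1 hi
      rcases eq_or_lt_of_le hi' with rfl | h2
      · exact le_rfl
      · exact (Q.mu_mono h2).le)
    hL D hdown hdense p
  refine ⟨q', hq', ?_⟩
  intro x b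
  obtain ⟨b', hb', hr⟩ := hE x b
  refine ⟨b', hb', hr _ ?_ ?_⟩
  · intro i hi
    exact if_pos hi
  · intro i hi
    exact if_neg hi

end Pool.Agent.W717.LC
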